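import Pool.Agent.L0h32.CX.Stm
import Pool.Agent.N602.FT.TimeCost

/-!
# Project CX: the statement of the module LOW
-/

set_option autoImplicit false
set_option linter.all false

namespace Pool.Agent.L0h32.CX

open Pool.Agent.H630R2.LA Pool.Agent.TH705.LB Pool.Agent.N602.FT

/-- LOW: the complement of the witness is expensive -/
def S_LOW : Prop := ∀ (m : ℕ) (strict : Prop) (M : LimAut (BL Ltr)),
  M.language strict = ((bwit m).language strict)ᶜ →
    2 ^ 2 ^ (m ^ 2) ≤ 2 ^ (Nat.card M.Q ^ 2) * Nat.card M.Q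

end Pool.Agent.L0h32.CX
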