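import Pool.Agent.L0h29.CX.CARD
import Pool.Agent.L0h33.CX.SND
import Pool.Agent.L0h33.CX.CMP
import Pool.Agent.L0h34.CX.MOV
import Pool.Agent.L0h59.CX.UNI
import Pool.Agent.L0h66.CX.PTH
import Pool.Agent.L0h66.CX.UPP
import Pool.Agent.L0h78.CX.LOW
import Pool.Agent.L0h83.CX.ENU
import Pool.Agent.L0h88.CX.NXT

/-!
# Project CX: the assembly
-/

set_option autoImplicit false

namespace Pool.Agent.L0h32.CX

theorem t_ENU : S_ENU := Pool.Agent.L0h83.CX.t_ENU Pool.Agent.L0h66.CX.t_PTH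

theorem t_NXT : S_NXT := Pool.Agent.L0h88.CX.t_NXT t_ENU

theorem t_SND : S_SND := Pool.Agent.L0h33.CX.t_SND Pool.Agent.L0h34.CX.t_MOV

theorem t_CMP : S_CMP := Pool.Agent.L0h33.CX.t_CMP t_NXT t_ENU

theorem t_UPP : S_UPP := Pool.Agent.L0h66.CX.t_UPP Pool.Agent.L0h29.CX.t_CARD t_SND t_CMP

theorem t_LOW : S_LOW := Pool.Agent.L0h78.CX.t_LOW

theorem t_UNI : S_UNI := Pool.Agent.L0h59.CX.t_UNI

end Pool.Agent.L0h32.CX
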