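import Pool.Agent.H630R2.LA.Det

/-!
# Project CX: the statement of the module UNI
-/

set_option autoImplicit false
set_option linter.all false

namespace Pool.Agent.L0h32.CX

open Pool.Agent.H630R2.LA

/-- The machine `M` with the final states `G`. -/
def withF {A : Type} (M : LimAut A) (G : Set M.Q) : LimAut A := { M with F := G }

/-- UNI: two machines are combined: the machine guesses at the beginning which one it simulates -/
def S_UNI : Prop := ∀ (A : Type) [Finite A] (strict : Prop) (M₁ M₂ : LimAut A),
  ∃ (M : LimAut A) (G : Set M.Q), M.language strict = M₁.language strict ∧
    (withF M G).language strict = M₂.language strict ∧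
    M.size + G.ncard ≤ (M₁.size + M₂.size) ^ 6

end Pool.Agent.L0h32.CX
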