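import Pool.Agent.L0h32.CX.StmL
import Pool.Agent.L0h32.CX.StmU
import Pool.Agent.L0h67.LS.Size

/-!
# The cost of complementing 1-limited automata: definitions and the final computation
-/

set_option autoImplicit false

namespace Pool.Agent.L0h32.CX

open Pool.Agent.H630R2.LA Pool.Agent.TH705.LB Pool.Agent.N602.FT

/-- The least size of a 1-limited automaton that accepts the complement of `L`. -/
noncomputable def compSize {A : Type} (strict : Prop) (L : Set (List A)) : ℕ :=
  sInf {s | ∃ M : LimAut A, M.language strict = Lᶜ ∧ M.size = s}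

/-- The sizes `compSize L(M)` for the 1-limited automata `M` of size at most `n`. -/
def compCosts (strict : Prop) (n : ℕ) : Set ℕ :=
  {s | ∃ (A : Type) (_ : Finite A) (M : LimAut A), M.size ≤ n ∧
    s = compSize strict (M.language strict)}

/-- The worst-case cost `C(n)` of complementing 1-limited automata. -/
noncomputable def C (strict : Prop) (n : ℕ) : ℕ := sSup (compCosts strict n)

/-- The automaton `M` with the additional set `G` of rejecting states is self-verifying: every input
is accepted (some computation path moves past the right end-marker in a state of `F`) or rejected (some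
computation path moves past the right end-marker in a state of `G`), and never both. -/
def SelfVerifying {A : Type} (strict : Prop) (M : LimAut A) (G : Set M.Q) : Prop :=
  (withF M G).language strict = (M.language strict)ᶜ

/-- The least size (with the number of rejecting states) of a self-verifying automaton for `L`. -/
noncomputable def svSize {A : Type} (strict : Prop) (L : Set (List A)) : ℕ :=
  sInf {s | ∃ (M : LimAut A) (G : Set M.Q), SelfVerifying strict M G ∧ M.language strict = L ∧
    M.size + G.ncard = s}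

/-- The sizes `svSize L(M)` for the 1-limited automata `M` of size at most `n`. -/
def svCosts (strict : Prop) (n : ℕ) : Set ℕ :=
  {s | ∃ (A : Type) (_ : Finite A) (M : LimAut A), M.size ≤ n ∧
    s = svSize strict (M.language strict)}

/-- The worst-case cost `V(n)` of the conversion of 1-limited automata into self-verifying ones. -/
noncomputable def V (strict : Prop) (n : ℕ) : ℕ := sSup (svCosts strict n)

section final

variable (hU : S_UPP) (hL : S_LOW) (hN : S_UNI) (strict : Prop)

include hU in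
theorem exists_comp {A : Type} [Finite A] (M : LimAut A) (n : ℕ) (hn : M.size ≤ n) :
    ∃ M' : LimAut A, M'.language strict = (M.language strict)ᶜ ∧ M'.size ≤ 2 ^ (50 * n ^ 2) :=
  hU A strict M n hn

include hU in
theorem compCosts_le (n s : ℕ) (hs : s ∈ compCosts strict n) : s ≤ 2 ^ (50 * n ^ 2) := by
  obtain ⟨A, hA, M, hM, rfl⟩ := hs
  obtain ⟨M', h1, h2⟩ := hU A strict M n hM
  exact le_trans (Nat.sInf_le ⟨M', h1, rfl⟩) h2

include hU in
theorem bdd_comp (n : ℕ) : BddAbove (compCosts strict n) :=
  ⟨_, fun s hs => compCosts_le hU strict n s hs⟩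

include hU in
theorem C_greatest (n : ℕ) (hn : 4 ≤ n) : IsGreatest (compCosts strict n) (C strict n) := by
  have hne : (compCosts strict n).Nonempty :=
    ⟨_, Empty, inferInstance, trivM, by rw [size_trivM]; exact hn, rfl⟩
  exact ⟨Nat.sSup_mem hne (bdd_comp hU strict n), fun s hs => le_csSup (bdd_comp hU strict n) hs⟩

include hU in
theorem C_le (n : ℕ) : C strict n ≤ 2 ^ (50 * n ^ 2) := by
  rcases (compCosts strict n).eq_empty_or_nonempty with h | h
  · unfold C
    rw [h]
    simp
  · exact csSup_le h fun s hs => compCosts_le hU strict n s hs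

include hU hN in
theorem exists_sv {A : Type} [Finite A] (M : LimAut A) (n : ℕ) (hn : M.size ≤ n) :
    ∃ (M' : LimAut A) (G : Set M'.Q), SelfVerifying strict M' G ∧
      M'.language strict = M.language strict ∧ M'.size + G.ncard ≤ 2 ^ (306 * n ^ 2) := by
  obtain ⟨M₂, h1, h2⟩ := hU A strict M n hn
  obtain ⟨M', G, h3, h4, h5⟩ := hN A strict M M₂
  refine ⟨M', G, ?_, h3, h5.trans ?_⟩
  · show (withF M' G).language strict = (M'.language strict)ᶜ
    rw [h4, h3, h1]
  · have h6 : n ≤ 2 ^ (50 * n ^ 2) := by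
      calc n ≤ 2 ^ n := (Nat.lt_two_pow_self).le
        _ ≤ 2 ^ (50 * n ^ 2) := Nat.pow_le_pow_right (by omega) (by nlinarith)
    have h7 : 1 ≤ n := by
      have := (Pool.Agent.L0h67.LS.size_pos M).1
      omega
    calc (M.size + M₂.size) ^ 6 ≤ (2 ^ (51 * n ^ 2)) ^ 6 := by
          apply Nat.pow_le_pow_left
          calc M.size + M₂.size ≤ 2 ^ (50 * n ^ 2) + 2 ^ (50 * n ^ 2) := by omega
            _ = 2 ^ (50 * n ^ 2 + 1) := by rw [pow_succ]; ring
            _ ≤ 2 ^ (51 * n ^ 2) := Nat.pow_le_pow_right (by omega) (by nlinarith)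
      _ = 2 ^ (306 * n ^ 2) := by rw [← pow_mul]; congr 1; ring

include hU hN in
theorem svCosts_le (n s : ℕ) (hs : s ∈ svCosts strict n) : s ≤ 2 ^ (306 * n ^ 2) := by
  obtain ⟨A, hA, M, hM, rfl⟩ := hs
  obtain ⟨M', G, h1, h2, h3⟩ := exists_sv hU hN strict M n hM
  exact le_trans (Nat.sInf_le ⟨M', G, h1, h2, rfl⟩) h3

include hU hN in
theorem bdd_sv (n : ℕ) : BddAbove (svCosts strict n) :=
  ⟨_, fun s hs => svCosts_le hU hN strict n s hs⟩

include hU hN in
theorem V_greatest (n : ℕ) (hn : 4 ≤ n) : IsGreatest (svCosts strict n) (V strict n) := by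
  have hne : (svCosts strict n).Nonempty :=
    ⟨_, Empty, inferInstance, trivM, by rw [size_trivM]; exact hn, rfl⟩
  exact ⟨Nat.sSup_mem hne (bdd_sv hU hN strict n), fun s hs => le_csSup (bdd_sv hU hN strict n) hs⟩

include hU hN in
theorem V_le (n : ℕ) : V strict n ≤ 2 ^ (306 * n ^ 2) := by
  rcases (svCosts strict n).eq_empty_or_nonempty with h | h
  · unfold V
    rw [h]
    simp
  · exact csSup_le h fun s hs => svCosts_le hU hN strict n s hs

theorem size_withF {A : Type} (M : LimAut A) (G : Set M.Q) : (withF M G).size ≤ M.size + G.ncard := by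
  have h1 : (withF M G).size = Nat.card M.Q + Nat.card A + (Nat.card M.W + 2) + 5 * M.numTrans + 1 +
    G.ncard := rfl
  have h2 : M.size = Nat.card M.Q + Nat.card A + (Nat.card M.W + 2) + 5 * M.numTrans + 1 +
    M.F.ncard := rfl
  omega

include hU hN in
theorem comp_le_sv {A : Type} [Finite A] (M : LimAut A) :
    compSize strict (M.language strict) ≤ svSize strict (M.language strict) := by
  have hne : {s | ∃ (M' : LimAut A) (G : Set M'.Q), SelfVerifying strict M' G ∧
      M'.language strict = M.language strict ∧ M'.size + G.ncard = s}.Nonempty := by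
    obtain ⟨M', G, h1, h2, _⟩ := exists_sv hU hN strict M M.size le_rfl
    exact ⟨_, M', G, h1, h2, rfl⟩
  obtain ⟨M', G, h1, h2, h3⟩ := Nat.sInf_mem hne
  have h4 : M'.size + G.ncard = svSize strict (M.language strict) := h3
  rw [← h4]
  refine le_trans (Nat.sInf_le ⟨withF M' G, ?_, rfl⟩) (size_withF M' G)
  have h5 : (withF M' G).language strict = (M'.language strict)ᶜ := h1
  rw [h5, h2]

include hU hN in
theorem C_le_V (n : ℕ) : C strict n ≤ V strict n := by
  rcases (compCosts strict n).eq_empty_or_nonempty with h | h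
  · unfold C
    rw [h]
    simp
  · refine csSup_le h ?_
    rintro s ⟨A, hA, M, hM, rfl⟩
    exact (comp_le_sv hU hN strict M).trans
      (le_csSup (bdd_sv hU hN strict n) ⟨A, hA, M, hM, rfl⟩)

include hL in
theorem low_size (m : ℕ) (M : LimAut (BL Ltr))
    (hM : M.language strict = ((bwit m).language strict)ᶜ) : 2 ^ (m ^ 2) ≤ M.size ^ 2 := by
  have h1 := hL m strict M hM
  have h2 : Nat.card M.Q + 3 ≤ M.size := by
    unfold LimAut.size
    omega
  have h3 : 2 ^ 2 ^ (m ^ 2) ≤ 2 ^ (M.size ^ 2) := by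
    refine h1.trans ?_
    calc 2 ^ (Nat.card M.Q ^ 2) * Nat.card M.Q ≤ 2 ^ (Nat.card M.Q ^ 2) * 2 ^ Nat.card M.Q :=
          Nat.mul_le_mul_left _ (Nat.lt_two_pow_self).le
      _ = 2 ^ (Nat.card M.Q ^ 2 + Nat.card M.Q) := by rw [pow_add]
      _ ≤ 2 ^ (M.size ^ 2) := by
          apply Nat.pow_le_pow_right (by omega)
          nlinarith
  exact (Nat.pow_le_pow_iff_right (by norm_num)).1 h3

include hU hL in
theorem C_lower (n : ℕ) (hn : 680000 ≤ n) : 2 ^ (n ^ 2 / (2 * 10 ^ 11)) ≤ C strict n := by
  obtain ⟨m, hm, h1, h2⟩ : ∃ m, 3 ≤ m ∧ 170000 * (m + 1) ≤ n ∧ n < 170000 * (m + 2) :=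
    ⟨n / 170000 - 1, by omega, by omega, by omega⟩
  have hmem : compSize strict ((bwit m).language strict) ∈ compCosts strict n :=
    ⟨BL Ltr, inferInstance, bwit m, (size_bwit m).trans h1, rfl⟩
  refine le_trans ?_ (le_csSup (bdd_comp hU strict n) hmem)
  have hne : {s | ∃ M : LimAut (BL Ltr), M.language strict = ((bwit m).language strict)ᶜ ∧
      M.size = s}.Nonempty := by
    obtain ⟨M', h3, _⟩ := hU (BL Ltr) strict (bwit m) _ le_rfl
    exact ⟨_, M', h3, rfl⟩
  obtain ⟨M', h3, h4⟩ := Nat.sInf_mem hne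
  have h5 : M'.size = compSize strict ((bwit m).language strict) := h4
  rw [← h5]
  have h6 := low_size hL strict m M' h3
  have h7 : 2 * (n ^ 2 / (2 * 10 ^ 11)) ≤ m ^ 2 := by
    have h8 : n ^ 2 ≤ 10 ^ 11 * m ^ 2 := by
      have h9 : n ^ 2 ≤ (170000 * (m + 2)) ^ 2 := Nat.pow_le_pow_left h2.le 2
      refine h9.trans ?_
      obtain ⟨r, rfl⟩ : ∃ r, m = 3 + r := ⟨m - 3, by omega⟩
      nlinarith [Nat.zero_le r, Nat.zero_le (r ^ 2)]
    have h10 : n ^ 2 / (2 * 10 ^ 11) * (2 * 10 ^ 11) ≤ n ^ 2 := Nat.div_mul_le_self _ _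
    omega
  have h8 : (2 ^ (n ^ 2 / (2 * 10 ^ 11))) ^ 2 ≤ M'.size ^ 2 := by
    refine le_trans ?_ h6
    rw [← pow_mul]
    exact Nat.pow_le_pow_right (by omega) (by omega)
  exact (Nat.pow_le_pow_iff_left (by norm_num)).1 h8

end final

end Pool.Agent.L0h32.CX
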