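import Mathlib
import Pool.Agent.H630R2.LA.Det

/-!
# Project CX (MP_0036f5_lc): complements of 1-limited automata

The nondeterministic 1-limited automaton for the complement: it annotates the blocks of `2 ^ h` cells by
the sets of the reachable states (as the deterministic machine of `H630R2/LA`), but the bits are found by
inductive counting. Definitions and the statements of the modules.

Notation: `t` letters have been treated, the cells `1..t+1` have been visited (the last one may be the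
right end-marker), home is the cell `t`. `E` is the distance from the beginning of the base block to the
cell `t + 1`: the state after `t + 1 - E` letters is the base.
-/

set_option autoImplicit false
set_option linter.all false

namespace Pool.Agent.L0h32.CX

open Relation
open Pool.Agent.H630R2.LA (LimAut Sym fz Fr Cfg Step init initTape WS lrel bitS ix nr Ann keep)

/-- The data with which an unvisited cell is entered: is this the first block, the index in the block,
the number of reachable states, the number of the states reachable at the beginning of the block, the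
bit of the cell. -/
structure Wr where
  first : Bool
  k : ℕ
  c : ℕ
  cb : ℕ
  b : Bool

/-- The memory at home. `job = 0`: counting, `job = 1`: the next bit, `job = 2`: the final test. -/
structure Mem (A : Type) where
  first : Bool
  k : ℕ
  c : ℕ
  cb : ℕ
  a : Option A
  job : ℕ
  y : ℕ
  cn : ℕ
  b0 : Bool
  z : ℕ
  d : ℕ
  f : Bool
  c' : ℕ

section defs

variable {A : Type} (h : ℕ) (rel : A → Fin (2 ^ h) → Fin (2 ^ h) → Bool) (p0 : Fin (2 ^ h))
  (facc : Fin (2 ^ h) → Bool)

/-- The states. -/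
inductive St : Type
  | wr (x : Wr) : St
  | hm (m : Mem A) : St
  | h1 (m : Mem A) : St
  | rA (m : Mem A) (i : ℕ) : St
  | rB (m : Mem A) (p : Fin (2 ^ h)) (i : ℕ) : St
  | rC (m : Mem A) (p : Fin (2 ^ h)) (i : ℕ) : St
  | rR (m : Mem A) (i : ℕ) : St
  | ex (x : Wr) : St
  | f1 : St
  | fin : St

/-- The distance from the beginning of the base block. -/
def E (m : Mem A) : ℕ := (if m.first = true then 0 else 2 ^ h) + m.k + 1

/-- The number of letters that are read in a test. -/
def Lt (m : Mem A) : ℕ := if m.job = 1 then 2 ^ h else E h m - 1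

/-- The property of the states that the present job is looking for. -/
def tst (m : Mem A) (q : Fin (2 ^ h)) : Bool :=
  if m.job = 0 then
    (match m.a with
      | some a => rel a q (ix h m.y)
      | none => false)
  else if m.job = 1 then decide (q.val = m.k + 1) else facc q

/-- The state `z` is (guessed and tested to be) reachable. -/
def yes (m : Mem A) : Mem A :=
  { m with z := m.z + 1, d := m.d + 1, f := m.f || tst h rel facc m (ix h m.z) }

/-- Changes of the memory at home. -/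
inductive Hop : Mem A → Mem A → Prop
  | no (m : Mem A) (hz : m.z < 2 ^ h) : Hop m { m with z := m.z + 1 }
  | nexty (m : Mem A) (hj : m.job = 0) (hz : m.z = 2 ^ h) (hy : m.y < 2 ^ h) (hd : m.d = m.c) :
      Hop m { m with y := m.y + 1, cn := m.cn + (if m.f = true then 1 else 0),
                     b0 := (if m.y = 0 then m.f else m.b0), z := 0, d := 0, f := false }
  | bits (m : Mem A) (hj : m.job = 0) (hy : m.y = 2 ^ h) (hk : m.k + 1 < 2 ^ h)
      (hf : m.first = false) :
      Hop m { m with job := 1, z := 0, d := 0, f := false, c' := m.cn }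

/-- The results. -/
inductive Exit : Mem A → Wr → Prop
  | new (m : Mem A) (hj : m.job = 0) (hy : m.y = 2 ^ h) (hk : m.k + 1 = 2 ^ h) :
      Exit m ⟨false, 0, m.cn, m.cn, m.b0⟩
  | fst (m : Mem A) (hj : m.job = 0) (hy : m.y = 2 ^ h) (hk : m.k + 1 < 2 ^ h)
      (hf : m.first = true) : Exit m ⟨true, m.k + 1, m.cn, m.cb, decide (ix h (m.k + 1) = p0)⟩
  | bit (m : Mem A) (hj : m.job = 1) (hz : m.z = 2 ^ h) (hd : m.d = m.cb) :
      Exit m ⟨false, m.k + 1, m.c', m.cb, m.f⟩

/-- Acceptance. -/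
def Acc (m : Mem A) : Prop := m.job = 2 ∧ m.z = 2 ^ h ∧ m.d = m.c ∧ m.f = false

/-- The memory at the beginning. -/
def start (x : Wr) (a : Option A) (job : ℕ) : Mem A :=
  ⟨x.first, x.k, x.c, x.cb, a, job, 0, 0, false, 0, 0, false, 0⟩

/-- The moves. -/
inductive Tr : St (A := A) h → Sym (WS A) → St (A := A) h → WS A → Bool → Prop
  | wrL (x : Wr) (a : A) : Tr (.wr x) (.sym (.raw a)) (.hm (start x (some a) 0)) (.mark a x.b) false
  | wrR (x : Wr) : Tr (.wr x) .rm (.hm (start x none 2)) .dum false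
  | hop (m m' : Mem A) (σ : Sym (WS A)) (hh : Hop h m m') : Tr (.hm m) σ (.h1 m') (keep σ) true
  | back (m : Mem A) (σ : Sym (WS A)) : Tr (.h1 m) σ (.hm m) (keep σ) false
  | ask (m : Mem A) (σ : Sym (WS A)) (hz : m.z < 2 ^ h) : Tr (.hm m) σ (.rA m (E h m)) (keep σ) true
  | aL (m : Mem A) (i : ℕ) (σ : Sym (WS A)) : Tr (.rA m (i + 1)) σ (.rA m i) (keep σ) false
  | aF (m : Mem A) (σ : Sym (WS A)) (hf : m.first = true) :
      Tr (.rA m 1) σ (.rB m p0 0) (keep σ) false
  | aC (m : Mem A) (i : ℕ) (σ : Sym (WS A)) (hf : m.first = false) (hi : i < 2 ^ h)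
      (hb : bitS σ = true) : Tr (.rA m (i + 1)) σ (.rB m (ix h i) i) (keep σ) false
  | bL (m : Mem A) (p : Fin (2 ^ h)) (i : ℕ) (σ : Sym (WS A)) :
      Tr (.rB m p (i + 1)) σ (.rB m p i) (keep σ) false
  | b0 (m : Mem A) (p : Fin (2 ^ h)) (σ : Sym (WS A)) : Tr (.rB m p 0) σ (.rC m p 1) (keep σ) true
  | cS (m : Mem A) (p p' : Fin (2 ^ h)) (i : ℕ) (σ : Sym (WS A)) (hi : i < Lt h m)
      (hl : lrel h rel σ p p' = true) : Tr (.rC m p (i + 1)) σ (.rC m p' (i + 2)) (keep σ) true
  | cD (m : Mem A) (p : Fin (2 ^ h)) (i : ℕ) (σ : Sym (WS A)) (hi : i = Lt h m)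
      (hp : p = ix h m.z) (hE : i + 1 = E h m) :
      Tr (.rC m p (i + 1)) σ (.hm (yes h rel facc m)) (keep σ) false
  | cR (m : Mem A) (p : Fin (2 ^ h)) (i : ℕ) (σ : Sym (WS A)) (hi : i = Lt h m)
      (hp : p = ix h m.z) (hE : i + 1 < E h m) :
      Tr (.rC m p (i + 1)) σ (.rR m (i + 2)) (keep σ) true
  | rS (m : Mem A) (i : ℕ) (σ : Sym (WS A)) (hi : i < E h m) :
      Tr (.rR m i) σ (.rR m (i + 1)) (keep σ) true
  | rE (m : Mem A) (i : ℕ) (σ : Sym (WS A)) (hi : i = E h m) :
      Tr (.rR m i) σ (.hm (yes h rel facc m)) (keep σ) false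
  | exi (m : Mem A) (x : Wr) (σ : Sym (WS A)) (hx : Exit h p0 m x) :
      Tr (.hm m) σ (.ex x) (keep σ) true
  | wrt (x : Wr) (σ : Sym (WS A)) : Tr (.ex x) σ (.wr x) (keep σ) true
  | acc (m : Mem A) (σ : Sym (WS A)) (hm : Acc h m) : Tr (.hm m) σ .f1 (keep σ) true
  | fin (σ : Sym (WS A)) : Tr .f1 σ .fin (keep σ) true

/-- Bounds for the numbers. -/
def BdM (m : Mem A) : Prop :=
  m.k ≤ 2 ^ h ∧ m.c ≤ 2 ^ h ∧ m.cb ≤ 2 ^ h ∧ m.job ≤ 2 ∧ m.y ≤ 2 ^ h ∧ m.cn ≤ 2 ^ h ∧ m.z ≤ 2 ^ h ∧
    m.d ≤ 2 ^ h ∧ m.c' ≤ 2 ^ h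

def BdW (x : Wr) : Prop := x.k ≤ 2 ^ h ∧ x.c ≤ 2 ^ h ∧ x.cb ≤ 2 ^ h

def Bd : St (A := A) h → Prop
  | .wr x => BdW h x
  | .hm m => BdM h m
  | .h1 m => BdM h m
  | .rA m i => BdM h m ∧ i ≤ 2 * 2 ^ h + 1
  | .rB m _ i => BdM h m ∧ i ≤ 2 * 2 ^ h + 1
  | .rC m _ i => BdM h m ∧ i ≤ 2 * 2 ^ h + 1
  | .rR m i => BdM h m ∧ i ≤ 2 * 2 ^ h + 1
  | .ex x => BdW h x
  | .f1 => True
  | .fin => True

end defs

end Pool.Agent.L0h32.CX
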