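import Pool.Agent.L0h32.CX.Def

/-!
# Project CX: the machine, the invariants, the statements of the modules
-/

set_option autoImplicit false
set_option linter.all false

namespace Pool.Agent.L0h32.CX

open Relation
open Pool.Agent.H630R2.LA (LimAut Sym fz Fr Cfg Step init initTape WS lrel bitS ix nr Ann keep
  finite_WS)

section defs

variable {A : Type} (h : ℕ) (rel : A → Fin (2 ^ h) → Fin (2 ^ h) → Bool) (p0 : Fin (2 ^ h))
  (facc : Fin (2 ^ h) → Bool)

/-- The initial data. -/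
def w0 : Wr := ⟨true, 0, 1, 1, decide (ix h 0 = p0)⟩

theorem bd_w0 : Bd (A := A) h (.wr (w0 h p0)) := by
  have : 1 ≤ 2 ^ h := Nat.one_le_two_pow
  exact ⟨Nat.zero_le _, this, this⟩

/-- The machine for the complement. -/
def ndM [Finite A] (hQ : Finite {s : St (A := A) h // Bd h s}) : LimAut A where
  Q := {s : St (A := A) h // Bd h s}
  W := WS A
  finQ := hQ
  finW := finite_WS A
  inp := WS.raw
  inp_inj := by
    intro a b hab
    cases hab
    rfl
  δ := fun q σ => {x | Tr h rel p0 facc q.1 σ x.1.1 x.2.1 x.2.2}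
  q0 := ⟨.wr (w0 h p0), bd_w0 h p0⟩
  F := {q | q.1 = .fin}

open Classical in
/-- The number of the states reachable after `t` letters. -/
noncomputable def cN (w : List A) (t : ℕ) : ℕ :=
  (Finset.univ.filter fun q : Fin (2 ^ h) => nr h rel p0 w t q).card

/-- The data `x` are right after `t` letters. -/
def WOK (w : List A) (t : ℕ) (x : Wr) : Prop :=
  x.first = decide (t < 2 ^ h) ∧ x.k = t % 2 ^ h ∧ x.c = cN h rel p0 w t ∧
    x.cb = cN h rel p0 w (t / 2 ^ h * 2 ^ h) ∧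
    (x.b = true ↔ nr h rel p0 w (t / 2 ^ h * 2 ^ h) (ix h t))

/-- The position for which the states are enumerated. -/
def qpos (t : ℕ) (m : Mem A) : ℕ := if m.job = 1 then t / 2 ^ h * 2 ^ h else t

open Classical in
def JobOK (w : List A) (t : ℕ) (m : Mem A) : Prop :=
  (m.job = 0 ∧ t < w.length ∧ m.a = w[t]? ∧ m.y ≤ 2 ^ h ∧
    m.cn = (Finset.univ.filter fun q : Fin (2 ^ h) => q.val < m.y ∧ nr h rel p0 w (t + 1) q).card ∧
    (0 < m.y → (m.b0 = true ↔ nr h rel p0 w (t + 1) (ix h 0)))) ∨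
  (m.job = 1 ∧ t < w.length ∧ m.first = false ∧ m.k + 1 < 2 ^ h ∧ m.c' = cN h rel p0 w (t + 1)) ∨
  (m.job = 2 ∧ t = w.length)

/-- The memory `m` at home is right. -/
def MOK (w : List A) (t : ℕ) (m : Mem A) : Prop :=
  m.first = decide (t < 2 ^ h) ∧ m.k = t % 2 ^ h ∧ m.c = cN h rel p0 w t ∧
    m.cb = cN h rel p0 w (t / 2 ^ h * 2 ^ h) ∧ m.z ≤ 2 ^ h ∧
    (∃ Z : Finset (Fin (2 ^ h)), (∀ q ∈ Z, nr h rel p0 w (qpos h t m) q ∧ q.val < m.z) ∧
      Z.card = m.d ∧ (m.f = true ↔ ∃ q ∈ Z, tst h rel facc m q = true)) ∧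
    JobOK h rel p0 w t m

/-- What is known of a state and the position of the head, if `t` letters have been treated and the
cells `1..t+1` have been visited. -/
def SOK (w : List A) (t : ℕ) : St (A := A) h → ℕ → Prop
  | .wr _, _ => False
  | .hm m, x => MOK h rel p0 facc w t m ∧ x = t
  | .h1 m, x => MOK h rel p0 facc w t m ∧ x = t + 1
  | .rA m i, x => MOK h rel p0 facc w t m ∧ m.z < 2 ^ h ∧ i ≤ E h m ∧ x + E h m = t + 1 + i
  | .rB m p i, x => MOK h rel p0 facc w t m ∧ m.z < 2 ^ h ∧ i ≤ E h m ∧ x + E h m = t + 1 + i ∧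
      nr h rel p0 w (t + 1 - E h m) p
  | .rC m p i, x => MOK h rel p0 facc w t m ∧ m.z < 2 ^ h ∧ 1 ≤ i ∧ i ≤ Lt h m + 1 ∧
      x + E h m = t + 1 + i ∧ nr h rel p0 w (t + 1 - E h m + (i - 1)) p
  | .rR m i, x => MOK h rel p0 facc w t m ∧ m.z < 2 ^ h ∧ i ≤ E h m ∧ x + E h m = t + 1 + i ∧
      nr h rel p0 w (qpos h t m) (ix h m.z)
  | .ex x', x => WOK h rel p0 w (t + 1) x' ∧ t < w.length ∧ x = t + 1
  | .f1, x => x = t + 1 ∧ t = w.length ∧ ¬ ∃ f, facc f = true ∧ nr h rel p0 w w.length f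
  | .fin, _ => ¬ ∃ f, facc f = true ∧ nr h rel p0 w w.length f

end defs

/-! ### Modules -/

/-- CARD: the number of states -/
def S_CARD : Prop := ∀ (A : Type) [Finite A] (h : ℕ), Finite {s : St (A := A) h // Bd h s} ∧
  Nat.card {s : St (A := A) h // Bd h s} ≤ 2 ^ (10 * h + 20) * (Nat.card A + 1)

/-- MOV: moves at home and in the tests preserve what is known (the tape is annotated). Pure case analysis of
`Tr`, with `x'` the new position of the head. -/
def S_MOV : Prop := ∀ (A : Type) (h : ℕ) (rel : A → Fin (2 ^ h) → Fin (2 ^ h) → Bool)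
  (p0 : Fin (2 ^ h)) (facc : Fin (2 ^ h) → Bool) (w : List A) (t : ℕ) (τ : ℕ → Sym (WS A)),
  t ≤ w.length → Ann h rel p0 w τ (min (t + 1) w.length) →
  ∀ (s s' : St (A := A) h) (x x' : ℕ) (b : WS A) (d : Bool), SOK h rel p0 facc w t s x →
    Tr h rel p0 facc s (τ x) s' b d → (d = true → x' = x + 1) → (d = false → x' + 1 = x) →
    b = keep (τ x) ∧ x ≤ t + 2 ∧
      ((s = .fin ∧ False) ∨ (∃ x'' , s = .ex x'' ∧ s' = .wr x'' ∧ x' = t + 2 ∧ x = t + 1 ∧
        WOK h rel p0 w (t + 1) x'' ∧ t < w.length) ∨ (x ≤ t + 1 ∧ SOK h rel p0 facc w t s' x'))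

/-- SND: the machine accepts only words of the complement -/
def S_SND : Prop := ∀ (A : Type) [Finite A] (strict : Prop) (h : ℕ)
  (rel : A → Fin (2 ^ h) → Fin (2 ^ h) → Bool) (p0 : Fin (2 ^ h)) (facc : Fin (2 ^ h) → Bool)
  (hQ : Finite {s : St (A := A) h // Bd h s}) (w : List A),
  w ∈ (ndM h rel p0 facc hQ).language strict → ¬ ∃ f, facc f = true ∧ nr h rel p0 w w.length f

/-- The runs on a frozen tape -/
def RS {A : Type} (h : ℕ) (rel : A → Fin (2 ^ h) → Fin (2 ^ h) → Bool) (p0 : Fin (2 ^ h))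
    (facc : Fin (2 ^ h) → Bool) (τ : ℕ → Sym (WS A)) (n : ℕ) (c c' : St (A := A) h × ℕ) : Prop :=
  c.2 ≤ n ∧ Bd h c'.1 ∧ ∃ d, Tr h rel p0 facc c.1 (τ c.2) c'.1 (keep (τ c.2)) d ∧
    (d = true → c'.2 = c.2 + 1) ∧ (d = false → c'.2 + 1 = c.2)

/-- PTH: a reachable state can be tested -/
def S_PTH : Prop := ∀ (A : Type) (h : ℕ) (rel : A → Fin (2 ^ h) → Fin (2 ^ h) → Bool)
  (p0 : Fin (2 ^ h)) (facc : Fin (2 ^ h) → Bool) (w : List A) (t : ℕ) (τ : ℕ → Sym (WS A)),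
  t ≤ w.length → Ann h rel p0 w τ (min (t + 1) w.length) → ∀ m : Mem A, MOK h rel p0 facc w t m →
  BdM h m → m.d < 2 ^ h → m.z < 2 ^ h → nr h rel p0 w (qpos h t m) (ix h m.z) →
  ReflTransGen (RS h rel p0 facc τ (t + 1)) (.hm m, t) (.hm (yes h rel facc m), t)

/-- ENU: the whole enumeration: from the right memory with `z = 0` to the right one with `z = 2 ^ h` -/
def S_ENU : Prop := ∀ (A : Type) (h : ℕ) (rel : A → Fin (2 ^ h) → Fin (2 ^ h) → Bool)
  (p0 : Fin (2 ^ h)) (facc : Fin (2 ^ h) → Bool) (w : List A) (t : ℕ) (τ : ℕ → Sym (WS A)),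
  t ≤ w.length → Ann h rel p0 w τ (min (t + 1) w.length) → ∀ m : Mem A, MOK h rel p0 facc w t m →
  BdM h m → m.z = 0 → m.d = 0 → m.f = false →
  ∃ f : Bool, (f = true ↔ ∃ q, nr h rel p0 w (qpos h t m) q ∧ tst h rel facc m q = true) ∧
    ReflTransGen (RS h rel p0 facc τ (t + 1)) (.hm m, t)
      (.hm { m with z := 2 ^ h, d := cN h rel p0 w (qpos h t m), f := f }, t)

/-- NXT: from one letter to the next one (frozen tape) -/
def S_NXT : Prop := ∀ (A : Type) (h : ℕ) (rel : A → Fin (2 ^ h) → Fin (2 ^ h) → Bool)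
  (p0 : Fin (2 ^ h)) (facc : Fin (2 ^ h) → Bool) (w : List A) (t : ℕ) (τ : ℕ → Sym (WS A)),
  t < w.length → Ann h rel p0 w τ (t + 1) → ∀ x : Wr, WOK h rel p0 w t x →
  ∃ x' : Wr, WOK h rel p0 w (t + 1) x' ∧
    ReflTransGen (RS h rel p0 facc τ (t + 1)) (.hm (start x w[t]? 0), t) (.wr x', t + 2)

/-- CMP: the machine accepts all words of the complement -/
def S_CMP : Prop := ∀ (A : Type) [Finite A] (strict : Prop) (h : ℕ)
  (rel : A → Fin (2 ^ h) → Fin (2 ^ h) → Bool) (p0 : Fin (2 ^ h)) (facc : Fin (2 ^ h) → Bool)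
  (hQ : Finite {s : St (A := A) h // Bd h s}) (w : List A),
  (¬ ∃ f, facc f = true ∧ nr h rel p0 w w.length f) → w ∈ (ndM h rel p0 facc hQ).language strict

/-- UPP: the upper bound -/
def S_UPP : Prop := ∀ (A : Type) [Finite A] (strict : Prop) (M : LimAut A) (n : ℕ), M.size ≤ n →
  ∃ M' : LimAut A, M'.language strict = (M.language strict)ᶜ ∧ M'.size ≤ 2 ^ (50 * n ^ 2)

end Pool.Agent.L0h32.CX
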